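import Mathlib

/-! # The averaging argument -/

set_option autoImplicit false

open scoped Classical
open Finset

namespace Pool.Agent.NH48.FN

/-- the number of changes of a nondecreasing sequence -/
theorem changes (ρ : ℕ → ℕ) (T : ℕ) (h : ∀ i < T, ρ i ≤ ρ (i + 1)) :
    ((range T).filter fun i => ρ (i + 1) ≠ ρ i).card + ρ 0 ≤ ρ T := by
  induction T with
  | zero => simp
  | succ T ih =>
    have h1 := ih fun i hi => h i (by omega)
    have h2 := h T (by omega)
    rw [range_add_one, filter_insert]
    split_ifs with h3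
    · rw [card_insert_of_notMem (by simp)]
      omega
    · omega

/-- resampling one coordinate -/
theorem sum_update {Y : Type} [Fintype Y] {T : ℕ} (i : Fin T) (g : (Fin T → Y) → ℝ) :
    ∑ z : Fin T → Y, ∑ y : Y, g (Function.update z i y) = Fintype.card Y * ∑ z, g z := by
  let e : (Fin T → Y) × Y ≃ (Fin T → Y) × Y :=
    { toFun := fun s => (Function.update s.1 i s.2, s.1 i)
      invFun := fun s => (Function.update s.1 i s.2, s.1 i)
      left_inv := fun s => by simp
      right_inv := fun s => by simp }
  have h1 : ∑ z : Fin T → Y, ∑ y : Y, g (Function.update z i y) =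
      ∑ s : (Fin T → Y) × Y, g (e s).1 := by
    rw [Fintype.sum_prod_type]
    rfl
  rw [h1, e.sum_comp (fun s => g s.1), Fintype.sum_prod_type]
  simp only [sum_const, card_univ, nsmul_eq_mul]
  rw [← mul_sum]

/-- the indicator of a proposition -/
noncomputable def ind (P : Prop) : ℝ := if P then (1 : ℝ) else 0

theorem card_real {A : Type} [Fintype A] (P : A → Prop) [DecidablePred P] :
    ((univ.filter P).card : ℝ) = ∑ a, ind (P a) := by
  rw [card_filter]
  push_cast
  apply sum_congr rfl
  intro a _
  unfold ind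
  by_cases h : P a <;> simp [h]

/-- the averaging argument -/
theorem avg_chain {Ω X Y : Type} [Fintype Ω] [Fintype X] [Fintype Y] [Nonempty Ω] [Nonempty X]
    [Nonempty Y] (T p : ℕ) (hp : 1 ≤ p) (hT : T = 4 * p - 3)
    (acc : Ω → Fin T → (Fin T → Y) → X → Prop) (rej st : Ω → Fin T → (Fin T → Y) → Prop)
    (h1 : ∀ i z x, 3 * Fintype.card Ω ≤ 4 * (univ.filter fun ω => acc ω i z x).card)
    (h2 : ∀ i z, 3 * Fintype.card Ω ≤ 4 * (univ.filter fun ω => rej ω i z).card)
    (h3 : ∀ ω z, (univ.filter fun i => ¬ st ω i z).card + 1 ≤ p)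
    (h4 : ∀ ω i z, 4 * (univ.filter fun x => acc ω i z x).card ≤ Fintype.card X ∨
      7 * (univ.filter fun y => rej ω i (Function.update z i y) ∧
        st ω i (Function.update z i y)).card ≤ Fintype.card Y) : False := by
  obtain ⟨cΩ, hcΩ⟩ : ∃ c : ℝ, c = Fintype.card Ω := ⟨_, rfl⟩
  obtain ⟨cX, hcX⟩ : ∃ c : ℝ, c = Fintype.card X := ⟨_, rfl⟩
  obtain ⟨cY, hcY⟩ : ∃ c : ℝ, c = Fintype.card Y := ⟨_, rfl⟩
  obtain ⟨cZ, hcZ⟩ : ∃ c : ℝ, c = Fintype.card (Fin T → Y) := ⟨_, rfl⟩
  have pΩ : 0 < cΩ := by rw [hcΩ]; exact_mod_cast Fintype.card_pos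
  have pX : 0 < cX := by rw [hcX]; exact_mod_cast Fintype.card_pos
  have pY : 0 < cY := by rw [hcY]; exact_mod_cast Fintype.card_pos
  have pZ : 0 < cZ := by rw [hcZ]; exact_mod_cast Fintype.card_pos
  -- the three sums
  obtain ⟨SA, hSA⟩ : ∃ S : ℝ, S = ∑ ω : Ω, ∑ i : Fin T, ∑ z : Fin T → Y, ∑ x : X,
    ind (acc ω i z x) := ⟨_, rfl⟩
  obtain ⟨SB, hSB⟩ : ∃ S : ℝ, S = ∑ ω : Ω, ∑ i : Fin T, ∑ z : Fin T → Y,
    ind (rej ω i z ∧ st ω i z) := ⟨_, rfl⟩
  have a1 : 3 / 4 * cΩ * (T * cZ * cX) ≤ SA := by
    have e : SA = ∑ i : Fin T, ∑ z : Fin T → Y, ∑ x : X, ∑ ω : Ω, ind (acc ω i z x) := by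
      rw [hSA, sum_comm]
      apply sum_congr rfl
      intro i _
      rw [sum_comm]
      apply sum_congr rfl
      intro z _
      exact sum_comm
    rw [e]
    calc 3 / 4 * cΩ * (T * cZ * cX) = ∑ _i : Fin T, ∑ _z : Fin T → Y, ∑ _x : X, 3 / 4 * cΩ := by
          simp only [sum_const, card_univ, Fintype.card_fin, nsmul_eq_mul]
          rw [← hcX, ← hcZ]
          ring
      _ ≤ _ := by
          apply sum_le_sum
          intro i _
          apply sum_le_sum
          intro z _
          apply sum_le_sum
          intro x _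
          have h : (3 * Fintype.card Ω : ℝ) ≤ 4 * ((univ.filter fun ω => acc ω i z x).card : ℝ) := by
            exact_mod_cast h1 i z x
          rw [card_real, ← hcΩ] at h
          change 3 * cΩ ≤ 4 * ∑ ω : Ω, ind (acc ω i z x) at h
          linarith
  have a2 : 3 / 4 * cΩ * (T * cZ) - cΩ * cZ * (p - 1) ≤ SB := by
    have e1 : 3 / 4 * cΩ * (T * cZ) ≤ ∑ ω : Ω, ∑ i : Fin T, ∑ z : Fin T → Y, ind (rej ω i z) := by
      have e : ∑ ω : Ω, ∑ i : Fin T, ∑ z : Fin T → Y, ind (rej ω i z) =
          ∑ i : Fin T, ∑ z : Fin T → Y, ∑ ω : Ω, ind (rej ω i z) := by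
        rw [sum_comm]
        apply sum_congr rfl
        intro i _
        exact sum_comm
      rw [e]
      calc 3 / 4 * cΩ * (T * cZ) = ∑ _i : Fin T, ∑ _z : Fin T → Y, 3 / 4 * cΩ := by
            simp only [sum_const, card_univ, Fintype.card_fin, nsmul_eq_mul]
            rw [← hcZ]
            ring
        _ ≤ _ := by
            apply sum_le_sum
            intro i _
            apply sum_le_sum
            intro z _
            have h : (3 * Fintype.card Ω : ℝ) ≤ 4 * ((univ.filter fun ω => rej ω i z).card : ℝ) := by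
              exact_mod_cast h2 i z
            rw [card_real, ← hcΩ] at h
            change 3 * cΩ ≤ 4 * ∑ ω : Ω, ind (rej ω i z) at h
            linarith
    have e2 : ∑ ω : Ω, ∑ i : Fin T, ∑ z : Fin T → Y, ind (¬ st ω i z) ≤ cΩ * cZ * (p - 1) := by
      calc ∑ ω : Ω, ∑ i : Fin T, ∑ z : Fin T → Y, ind (¬ st ω i z)
          = ∑ ω : Ω, ∑ z : Fin T → Y, ∑ i : Fin T, ind (¬ st ω i z) := by
            apply sum_congr rfl
            intro ω _
            exact sum_comm
        _ ≤ ∑ _ω : Ω, ∑ _z : Fin T → Y, ((p : ℝ) - 1) := by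
            apply sum_le_sum
            intro ω _
            apply sum_le_sum
            intro z _
            have h : ((univ.filter fun i => ¬ st ω i z).card : ℝ) + 1 ≤ p := by
              exact_mod_cast h3 ω z
            rw [card_real] at h
            change ∑ i : Fin T, ind (¬ st ω i z) + 1 ≤ (p : ℝ) at h
            linarith
        _ = cΩ * cZ * (p - 1) := by
            simp only [sum_const, card_univ, nsmul_eq_mul]
            rw [← hcZ, ← hcΩ]
            ring
    have e3 : ∑ ω : Ω, ∑ i : Fin T, ∑ z : Fin T → Y, ind (rej ω i z) ≤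
        SB + ∑ ω : Ω, ∑ i : Fin T, ∑ z : Fin T → Y, ind (¬ st ω i z) := by
      rw [hSB, ← sum_add_distrib]
      apply sum_le_sum
      intro ω _
      rw [← sum_add_distrib]
      apply sum_le_sum
      intro i _
      rw [← sum_add_distrib]
      apply sum_le_sum
      intro z _
      simp only [ind]
      by_cases g1 : rej ω i z <;> by_cases g2 : st ω i z <;> simp [g1, g2]
    linarith
  have a3 : SA * cY + SB * (cX * cY) ≤ 5 / 4 * (cX * cY) * (cΩ * (T * cZ)) := by
    have e1 : SB * cY = ∑ ω : Ω, ∑ i : Fin T, ∑ z : Fin T → Y, ∑ y : Y,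
        ind (rej ω i (Function.update z i y) ∧ st ω i (Function.update z i y)) := by
      rw [hSB, sum_mul]
      apply sum_congr rfl
      intro ω _
      rw [sum_mul]
      apply sum_congr rfl
      intro i _
      rw [sum_update i fun z => ind (rej ω i z ∧ st ω i z), ← hcY, mul_comm]
    have e2 : SA * cY + SB * (cX * cY) = ∑ ω : Ω, ∑ i : Fin T, ∑ z : Fin T → Y,
        (cY * ∑ x : X, ind (acc ω i z x) + cX * ∑ y : Y,
          ind (rej ω i (Function.update z i y) ∧ st ω i (Function.update z i y))) := by
      have : SB * (cX * cY) = cX * (SB * cY) := by ring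
      rw [this, e1, hSA]
      simp only [sum_add_distrib, mul_sum, sum_mul]
      congr 1
      apply sum_congr rfl
      intro ω _
      apply sum_congr rfl
      intro i _
      apply sum_congr rfl
      intro z _
      apply sum_congr rfl
      intro x _
      ring
    rw [e2]
    calc _ ≤ ∑ _ω : Ω, ∑ _i : Fin T, ∑ _z : Fin T → Y, 5 / 4 * (cX * cY) := by
          apply sum_le_sum
          intro ω _
          apply sum_le_sum
          intro i _
          apply sum_le_sum
          intro z _
          have u1 : ∑ x : X, ind (acc ω i z x) ≤ cX := by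
            calc ∑ x : X, ind (acc ω i z x) ≤ ∑ _x : X, (1 : ℝ) := by
                  apply sum_le_sum
                  intro x _
                  simp only [ind]
                  split_ifs <;> norm_num
              _ = cX := by simp [hcX]
          have u2 : ∑ y : Y, ind (rej ω i (Function.update z i y) ∧
              st ω i (Function.update z i y)) ≤ cY := by
            calc _ ≤ ∑ _y : Y, (1 : ℝ) := by
                  apply sum_le_sum
                  intro y _
                  simp only [ind]
                  split_ifs <;> norm_num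
              _ = cY := by simp [hcY]
          rcases h4 ω i z with g | g
          · have g' : 4 * ((univ.filter fun x => acc ω i z x).card : ℝ) ≤ Fintype.card X := by
              exact_mod_cast g
            rw [card_real, ← hcX] at g'
            change 4 * ∑ x : X, ind (acc ω i z x) ≤ cX at g'
            nlinarith [mul_le_mul_of_nonneg_left u2 pX.le, mul_le_mul_of_nonneg_left g' pY.le]
          · have g' : 7 * ((univ.filter fun y => rej ω i (Function.update z i y) ∧
                st ω i (Function.update z i y)).card : ℝ) ≤ Fintype.card Y := by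
              exact_mod_cast g
            rw [card_real, ← hcY] at g'
            change 7 * ∑ y : Y, ind (rej ω i (Function.update z i y) ∧
              st ω i (Function.update z i y)) ≤ cY at g'
            nlinarith [mul_le_mul_of_nonneg_left u1 pY.le, mul_le_mul_of_nonneg_left g' pX.le,
              mul_pos pX pY]
      _ = _ := by
          simp only [sum_const, card_univ, Fintype.card_fin, nsmul_eq_mul]
          rw [← hcZ, ← hcΩ]
          ring
  -- conclusion
  have hTr : (T : ℝ) = 4 * p - 3 := by
    have h : T + 3 = 4 * p := by omega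
    have h' : (T : ℝ) + 3 = 4 * p := by exact_mod_cast h
    linarith
  have pXY : 0 < cX * cY := mul_pos pX pY
  have b1 := mul_le_mul_of_nonneg_right a1 pY.le
  have b2 := mul_le_mul_of_nonneg_right a2 pXY.le
  have b3 : 3 / 4 * cΩ * (T * cZ * cX) * cY + (3 / 4 * cΩ * (T * cZ) - cΩ * cZ * (p - 1)) *
      (cX * cY) ≤ 5 / 4 * (cX * cY) * (cΩ * (T * cZ)) := by linarith
  have b4 : (cX * cY * cΩ * cZ) * (T / 4 - (p - 1)) ≤ 0 := by
    have : 3 / 4 * cΩ * (T * cZ * cX) * cY + (3 / 4 * cΩ * (T * cZ) - cΩ * cZ * (p - 1)) *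
        (cX * cY) - 5 / 4 * (cX * cY) * (cΩ * (T * cZ)) =
        (cX * cY * cΩ * cZ) * (T / 4 - (p - 1)) := by ring
    linarith
  have b5 : 0 < (cX * cY * cΩ * cZ) * ((T : ℝ) / 4 - (p - 1)) := by
    apply mul_pos (mul_pos (mul_pos pXY pΩ) pZ)
    rw [hTr]
    linarith
  linarith

end Pool.Agent.NH48.FN
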