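import Pool.Agent.H589R3.DT.Main

/-! # The hard distributions for circuits of monotone real gates -/

set_option autoImplicit false

open scoped Classical
open Finset

namespace Pool.Agent.NH48.FN

open H589DT
open H630VC (Prog marked)

/-- the dichotomy on a host, for the conflict-free samples -/
theorem hard {U E Λ A : Type} [Fintype U] [Fintype E] [Fintype Λ]
    [Fintype A] [Nonempty A] (G : CGraph U E Λ) (L M Q : ℕ) (F : Local U Λ (2 * L))
    (hF : ∀ S ρ, F.C S ρ → G.SatOn S ρ) (hL : 2 ≤ L) (hM : 1 ≤ M) (hQ : 1 ≤ Q)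
    (h1 : 64 * L * Q ≤ Fintype.card A)
    (h2 : 8 * (Fintype.card U * Fintype.card A * Fintype.card Λ ^ 2 * M ^ 2) ≤ Q ^ 2)
    (h3 : 2 ^ L * (Fintype.card U * Fintype.card A * Fintype.card Λ + 1) ^ (2 * L) * 8 ≤ 2 ^ M)
    {I : Type} (inst : Finset (E × A × A) → I) (inp : Set (I → ℝ)) (hi : HostInputs inst inp) :
    ∃ (_ : Fintype (U → A)) (_ : Fintype {y : Smp (U × A) Λ M Q // NoConflict (marked y)})
      (_ : Nonempty (U → A)), Nonempty {y : Smp (U × A) Λ M Q // NoConflict (marked y)} ∧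
      ∀ l : List (I → ℝ), Prog inp l → ∀ f ∈ l, l.length < 2 ^ L →
        4 * (univ.filter fun x : U → A => 1 ≤ f (inst (hx G x))).card ≤ Fintype.card (U → A) ∨
        7 * (univ.filter fun y : {y : Smp (U × A) Λ M Q // NoConflict (marked y)} =>
          f (inst (hT G (marked y.1))) < 1).card ≤
            Fintype.card {y : Smp (U × A) Λ M Q // NoConflict (marked y)} := by
  have : NeZero Q := ⟨by omega⟩
  have hbad : 8 * (univ.filter fun ω : Smp (U × A) Λ M Q => ¬ NoConflict (marked ω)).card ≤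
      Fintype.card (Smp (U × A) Λ M Q) := by
    have g1 : (univ.filter fun ω : Smp (U × A) Λ M Q => ¬ NoConflict (marked ω)).card * Q ^ 2 ≤
        Fintype.card U * Fintype.card A * Fintype.card Λ ^ 2 * M ^ 2 *
          Fintype.card (Smp (U × A) Λ M Q) := by
      have g0 := t_NC (U × A) Λ M Q hQ
      rw [Fintype.card_prod] at g0
      exact le_of_eq_of_le (congrArg (· * Q ^ 2) (cardFU _ _ _ _ _ _ fun _ => Iff.rfl))
        (g0.trans (le_of_eq (congrArg (Fintype.card U * Fintype.card A * Fintype.card Λ ^ 2 *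
          M ^ 2 * ·) (cardFt _ _))))
    generalize Fintype.card (Smp (U × A) Λ M Q) = S at g1 ⊢
    generalize (univ.filter fun ω : Smp (U × A) Λ M Q => ¬ NoConflict (marked ω)).card = bad
      at g1 ⊢
    have g2 : 8 * bad * Q ^ 2 ≤ S * Q ^ 2 := by
      calc 8 * bad * Q ^ 2 = 8 * (bad * Q ^ 2) := by ring
        _ ≤ 8 * (Fintype.card U * Fintype.card A * Fintype.card Λ ^ 2 * M ^ 2 * S) :=
            Nat.mul_le_mul_left _ g1
        _ = (8 * (Fintype.card U * Fintype.card A * Fintype.card Λ ^ 2 * M ^ 2)) * S := by ring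
        _ ≤ Q ^ 2 * S := Nat.mul_le_mul_right _ h2
        _ = _ := by ring
    exact Nat.le_of_mul_le_mul_right g2 (by positivity)
  have hSpos : 0 < Fintype.card (Smp (U × A) Λ M Q) := Fintype.card_pos
  have hsplit : Fintype.card {y : Smp (U × A) Λ M Q // NoConflict (marked y)} +
      (univ.filter fun ω : Smp (U × A) Λ M Q => ¬ NoConflict (marked ω)).card =
        Fintype.card (Smp (U × A) Λ M Q) := by
    rw [Fintype.card_subtype, card_filter_add_card_filter_not, card_univ]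
  have hYpos : 0 < Fintype.card {y : Smp (U × A) Λ M Q // NoConflict (marked y)} := by omega
  refine ⟨inferInstance, inferInstance, inferInstance, Fintype.card_pos_iff.1 hYpos, ?_⟩
  intro l hl f hf hlen
  rcases ho_all U E Λ A G L M Q F hF (by omega) hM hQ h1 I inst inp hi l hl f hf 1
    with g1 | g1
  · left
    generalize Fintype.card (U → A) = cX at g1 ⊢
    generalize (univ.filter fun x : U → A => 1 ≤ f (inst (hx G x))).card = c1 at g1 ⊢
    generalize l.length = s at g1 hlen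
    have g2 : 28 * s + 4 * 8 ^ L ≤ 7 * 8 ^ L := by
      have e1 : (8 : ℕ) ^ L = 2 ^ L * (2 ^ L * 2 ^ L) := by
        rw [← mul_pow, ← mul_pow]
        norm_num
      have e2 : 4 ≤ 2 ^ L := by
        calc 4 = 2 ^ 2 := by norm_num
          _ ≤ 2 ^ L := Nat.pow_le_pow_right (by norm_num) hL
      have e3 : 16 * 2 ^ L ≤ 8 ^ L := by
        rw [e1]
        calc 16 * 2 ^ L = 2 ^ L * (4 * 4) := by ring
          _ ≤ 2 ^ L * (2 ^ L * 2 ^ L) := Nat.mul_le_mul_left _ (Nat.mul_le_mul e2 e2)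
      omega
    have g3 : 7 * 8 ^ L * (4 * c1) ≤ 7 * 8 ^ L * cX := by
      calc 7 * 8 ^ L * (4 * c1) = 4 * (7 * 8 ^ L * c1) := by ring
        _ ≤ 4 * ((7 * s + 8 ^ L) * cX) := Nat.mul_le_mul_left _ g1
        _ = (28 * s + 4 * 8 ^ L) * cX := by ring
        _ ≤ 7 * 8 ^ L * cX := Nat.mul_le_mul_right _ g2
    exact Nat.le_of_mul_le_mul_left g3 (by positivity)
  · right
    have hle : (univ.filter fun y : {y : Smp (U × A) Λ M Q // NoConflict (marked y)} =>
        f (inst (hT G (marked y.1))) < 1).card ≤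
        (univ.filter fun y : Smp (U × A) Λ M Q => f (inst (hT G (marked y))) < 1).card := by
      apply card_le_card_of_injOn Subtype.val
      · intro y hy
        exact mem_coe.2 (mem_filter.2 ⟨mem_univ _, (mem_filter.1 (mem_coe.1 hy)).2⟩)
      · exact Subtype.val_injective.injOn
    have hc : 8 * (univ.filter fun y : Smp (U × A) Λ M Q =>
        f (inst (hT G (marked y))) < 1).card ≤ Fintype.card (Smp (U × A) Λ M Q) := by
      generalize Fintype.card (Smp (U × A) Λ M Q) = S at g1 ⊢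
      generalize (univ.filter fun y : Smp (U × A) Λ M Q => f (inst (hT G (marked y))) < 1).card
        = c2 at g1 ⊢
      generalize l.length = s at g1 hlen
      generalize (Fintype.card U * Fintype.card A * Fintype.card Λ + 1) ^ (2 * L) = W at g1 h3
      have g2 : s * W * 8 ≤ 2 ^ M :=
        le_trans (Nat.mul_le_mul_right _ (Nat.mul_le_mul_right _ hlen.le)) h3
      have g4 : 8 * c2 * 2 ^ M ≤ S * 2 ^ M := by
        calc 8 * c2 * 2 ^ M = 8 * (c2 * 2 ^ M) := by ring
          _ ≤ 8 * (s * (W * S)) := Nat.mul_le_mul_left _ g1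
          _ = (s * W * 8) * S := by ring
          _ ≤ 2 ^ M * S := Nat.mul_le_mul_right _ g2
          _ = _ := by ring
      exact Nat.le_of_mul_le_mul_right g4 (by positivity)
    omega

/-- the hard distributions: finite families of NO instances and of YES instances such that each
small circuit of monotone real gates accepts at most a quarter of the former or rejects at most a
seventh of the latter -/
theorem base_L (d : ℕ) (hd : 2 ≤ d) (ε : ℝ) (hε : 0 < ε) :
    ∃ R L1 : ℕ, 1 ≤ R ∧ ∀ L : ℕ, L1 ≤ L → ∀ N : ℕ, 64 * L ^ 13 + 1 ≤ N →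
      ∃ (X Y : Type) (_ : Fintype X) (_ : Fintype Y) (_ : Nonempty X) (_ : Nonempty Y)
        (pos : X → DGame (Fin N) (Fin N) d R) (neg : Y → DGame (Fin N) (Fin N) d R),
        (∀ x, DNo ε (pos x)) ∧ (∀ y, DYes (neg y)) ∧
        ∀ l : List (DGame (Fin N) (Fin N) d R → ℝ), Prog (dInputs (Fin N) (Fin N) d R) l →
          ∀ f ∈ l, l.length < 2 ^ L →
          4 * (univ.filter fun x => 1 ≤ f (pos x)).card ≤ Fintype.card X ∨
          7 * (univ.filter fun y => f (neg y) < 1).card ≤ Fintype.card Y := by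
  obtain ⟨p, D, hp, hkp, hDp, hD⟩ := choice_p d (Nat.ceil (8 / ε)) hd
  set k := Nat.ceil (8 / ε) with hk
  have hp1 : 1 ≤ p := hp.one_lt.le
  have : NeZero p := ⟨hp.pos.ne'⟩
  have : NeZero d := ⟨by omega⟩
  set r := 2 * (d * p) + 4 with hr
  set h := 3 * r with hh
  have hD1 : 1 ≤ D := by
    by_contra h0
    have : D = 0 := by omega
    rw [this, pow_zero] at hD
    have : 1 ≤ d * p ^ 2 := Nat.mul_pos (by omega) (pow_pos hp.pos 2)
    omega
  obtain ⟨n0, hn0⟩ := t_EX D (2 * h) r (by omega)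
  obtain ⟨L0, hL0⟩ := pow_le_two_pow
  refine ⟨p, n0 + L0 + 64 * (h + 1) ^ 2 + 1024 * (d * p) ^ 2 + Nat.ceil (4 / ε) + 2, hp1, ?_⟩
  intro L hL N hN
  have hL2 : 2 ≤ L := by omega
  -- the graph
  obtain ⟨n, hn⟩ : ∃ n, n = L ^ 3 := ⟨_, rfl⟩
  obtain ⟨M, hM⟩ : ∃ M, M = L ^ 2 := ⟨_, rfl⟩
  obtain ⟨Q, hQ⟩ : ∃ Q, Q = L ^ 9 := ⟨_, rfl⟩
  obtain ⟨m, hm⟩ : ∃ m, m = 64 * L ^ 10 := ⟨_, rfl⟩
  have hLn : L ≤ n := by
    rw [hn]
    calc L = L ^ 1 := (pow_one L).symm
      _ ≤ L ^ 3 := Nat.pow_le_pow_right (by omega) (by norm_num)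
  obtain ⟨φ, B, hB, hsp, hgi⟩ := hn0 n (by omega)
  have hφ := phi_inj (fun S hS hS2 => hgi S hS (hS2.trans (by omega)))
  -- the number of edges and `K`
  have hEE := card_EE (D := D) B
  have hE2 : n * D ≤ 2 * Fintype.card (EE D B) := by
    rw [hEE]
    calc n * D ≤ (2 * (n - B.card)) * D := Nat.mul_le_mul_right _ (by omega)
      _ = _ := by ring
  set EC := Fintype.card (EE D B) with hEC
  set K := Nat.ceil (ε * EC / 2) with hK
  have hECr : (2 : ℝ) / ε ≤ EC := by
    have h1 : (4 / ε : ℝ) ≤ L := (Nat.le_ceil _).trans (Nat.cast_le.2 (by omega))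
    have h2 : n ≤ 2 * EC := (Nat.le_mul_of_pos_right n hD1).trans hE2
    have h3 : (L : ℝ) ≤ 2 * EC := by exact_mod_cast hLn.trans h2
    have h4 : (4 / ε : ℝ) = 2 * (2 / ε) := by ring
    linarith
  have hKlt : (K : ℝ) < ε * ((EC : ℝ) + 1) := by
    have h1 : (K : ℝ) < ε * EC / 2 + 1 := Nat.ceil_lt_add_one (by positivity)
    have h2 : 2 ≤ EC * ε := (div_le_iff₀ hε).1 hECr
    nlinarith
  have hpK : (d * p ^ 2) ^ n * 2 ^ (D * n) < p ^ K := by
    have h1 : 2 * (D * n) ≤ k * K := by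
      have h2 : (8 / ε : ℝ) ≤ k := Nat.le_ceil _
      have h3 : ε * EC / 2 ≤ (K : ℝ) := Nat.le_ceil _
      have h4 : (4 * EC : ℝ) ≤ k * K := by
        calc (4 * EC : ℝ) = (8 / ε) * (ε * EC / 2) := by field_simp; ring
          _ ≤ k * K := mul_le_mul h2 h3 (by positivity) (by positivity)
      have h5 : (4 * EC : ℕ) ≤ k * K := by exact_mod_cast h4
      calc 2 * (D * n) = 2 * (n * D) := by ring
        _ ≤ 2 * (2 * EC) := Nat.mul_le_mul_left _ hE2
        _ = 4 * EC := by ring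
        _ ≤ _ := h5
    have hn1 : n ≠ 0 := by omega
    calc (d * p ^ 2) ^ n * 2 ^ (D * n) < (2 ^ D) ^ n * 2 ^ (D * n) := by
          apply Nat.mul_lt_mul_of_pos_right _ (by positivity)
          exact Nat.pow_lt_pow_left hD hn1
      _ = 2 ^ (2 * (D * n)) := by rw [← pow_mul, two_mul, pow_add]
      _ ≤ 2 ^ (k * K) := Nat.pow_le_pow_right (by norm_num) h1
      _ = (2 ^ k) ^ K := by rw [pow_mul]
      _ ≤ p ^ K := Nat.pow_le_pow_left hkp K
  obtain ⟨s, hs⟩ := t_SH n D p d K hp1 φ B hpK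
  -- local consistency
  set G := gameGraph (d := d) φ B s with hG
  have hGgirth : G.Girth r := fun S hS hSr => lt_of_le_of_lt (ein_le φ B s S) (hgi S hS hSr)
  have hGsparse : G.Sparse (2 * h) (8 * (h + 1) * L) := by
    intro S hS
    refine (ein_le φ B s S).trans (hsp S ?_)
    calc S.card ^ 2 ≤ (8 * (h + 1) * L) ^ 2 := Nat.pow_le_pow_left hS 2
      _ = (64 * (h + 1) ^ 2) * L ^ 2 := by ring
      _ ≤ L * L ^ 2 := Nat.mul_le_mul_right _ (by omega)
      _ = n := by rw [hn]; ring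
  obtain ⟨F, hF⟩ := lo_all _ _ _ G r h (8 * (h + 1) * L) (2 * L) (by omega) le_rfl
    (gameGraph_surj (by omega) φ B s) (t_MX n D p d hp hDp hd φ B s) hGgirth hGsparse
    (by ring_nf; exact le_rfl)
  -- parameters of the approximation
  set q := d * p with hq
  have hmpos : 0 < m := by rw [hm]; positivity
  have : NeZero m := ⟨hmpos.ne'⟩
  have hcardV : Fintype.card (Option (Fin n × Fin m)) ≤ Fintype.card (Fin N) := by
    rw [Fintype.card_option, Fintype.card_prod, Fintype.card_fin, Fintype.card_fin,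
      Fintype.card_fin]
    calc n * m + 1 = 64 * L ^ 13 + 1 := by rw [hn, hm]; ring
      _ ≤ N := hN
  obtain ⟨ιV⟩ := Function.Embedding.nonempty_of_card_le hcardV
  have hcardΛ : Fintype.card (ZMod p × Fin d) = q := by
    rw [Fintype.card_prod, ZMod.card, Fintype.card_fin, mul_comm]
  have hcardU : Fintype.card (Fin n ⊕ Fin n) = 2 * n := by
    rw [Fintype.card_sum, Fintype.card_fin]; ring
  have hQ1 : 1 ≤ Q := by rw [hQ]; exact Nat.one_le_pow _ _ (by omega)
  have hM1 : 1 ≤ M := by rw [hM]; exact Nat.one_le_pow _ _ (by omega)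
  have hq1 : 1 ≤ q := Nat.mul_pos (by omega) hp.pos
  have hqL : 1024 * q ^ 2 ≤ L := by omega
  have k1 : 64 * L * Q ≤ Fintype.card (Fin m) := by
    rw [Fintype.card_fin, hm, hQ]
    apply le_of_eq
    ring
  have k2 : 8 * (Fintype.card (Fin n ⊕ Fin n) * Fintype.card (Fin m) *
      Fintype.card (ZMod p × Fin d) ^ 2 * M ^ 2) ≤ Q ^ 2 := by
    rw [hcardU, Fintype.card_fin, hcardΛ]
    calc 8 * (2 * n * m * q ^ 2 * M ^ 2) = (1024 * q ^ 2) * L ^ 17 := by rw [hn, hm, hM]; ring
      _ ≤ L * L ^ 17 := Nat.mul_le_mul_right _ hqL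
      _ = Q ^ 2 := by rw [hQ]; ring
  have k3 : 2 ^ L * (Fintype.card (Fin n ⊕ Fin n) * Fintype.card (Fin m) *
      Fintype.card (ZMod p × Fin d) + 1) ^ (2 * L) * 8 ≤ 2 ^ M := by
    rw [hcardU, Fintype.card_fin, hcardΛ]
    exact num3 L q n m M (by omega) hq1 hqL hn hm hM (hL0 L (by omega))
  obtain ⟨b1, b2, b3, b4⟩ := hard G L M Q F hF hL2 hM1 hQ1 k1 k2 k3 (hostInst φ B s ιV ιV d)
    (dInputs (Fin N) (Fin N) d p) (hostInputs hφ)
  exact ⟨_, _, b1, b2, b3, b4.1, fun x => hostInst φ B s ιV ιV d (hx G x),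
    fun y => hostInst φ B s ιV ιV d (hT G (marked y.1)), fun x => host_no hφ ε K hKlt hs x,
    fun y => host_yes hφ _ y.2, b4.2⟩

end Pool.Agent.NH48.FN
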