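import Pool.Agent.H589R3.DT.GameDefs

/-! # Games that consist of layers of blow-ups -/

set_option autoImplicit false

open scoped Classical
open Finset

namespace Pool.Agent.NH48.FN

open H589DT

variable {V : Type} {T M : ℕ} {b : ℕ → ℕ} {d R : ℕ}

/-- the layer of a vertex, `T` if the vertex is not used -/
noncomputable def lay (ι : (Σ i : Fin T, Fin M × Fin (b i)) ↪ V) (v : V) : ℕ :=
  if h : ∃ s, ι s = v then (h.choose.1 : ℕ) else T

/-- the block of a vertex -/
noncomputable def blk (q0 : Fin M) (ι : (Σ i : Fin T, Fin M × Fin (b i)) ↪ V) (v : V) : Fin M :=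
  if h : ∃ s, ι s = v then h.choose.2.1 else q0

theorem lay_ι (ι : (Σ i : Fin T, Fin M × Fin (b i)) ↪ V) (s : Σ i : Fin T, Fin M × Fin (b i)) :
    lay ι (ι s) = s.1 := by
  have h : ∃ s', ι s' = ι s := ⟨s, rfl⟩
  have h2 : h.choose = s := ι.injective h.choose_spec
  rw [lay, dif_pos h, h2]

theorem blk_ι (q0 : Fin M) (ι : (Σ i : Fin T, Fin M × Fin (b i)) ↪ V)
    (s : Σ i : Fin T, Fin M × Fin (b i)) : blk q0 ι (ι s) = s.2.1 := by
  have h : ∃ s', ι s' = ι s := ⟨s, rfl⟩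
  have h2 : h.choose = s := ι.injective h.choose_spec
  rw [blk, dif_pos h, h2]

theorem exists_ι (ι : (Σ i : Fin T, Fin M × Fin (b i)) ↪ V) (v : V) (i : Fin T)
    (h : lay ι v = i) : ∃ (q : Fin M) (a : Fin (b i)), v = ι ⟨i, q, a⟩ := by
  by_cases hv : ∃ s, ι s = v
  · obtain ⟨⟨j, q, a⟩, rfl⟩ := hv
    rw [lay_ι] at h
    have hij : j = i := Fin.ext h
    subst hij
    exact ⟨q, a, rfl⟩
  · rw [lay, dif_neg hv] at h
    exact absurd h (Nat.ne_of_gt i.2)

/-- the game with the blow-ups of the games `g i`, `i < T`, in the layers -/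
noncomputable def glue (q0 : Fin M) (ι : (Σ i : Fin T, Fin M × Fin (b i)) ↪ V)
    (g : ℕ → DGame (Fin M) (Fin M) d R) : DGame V V d R where
  adj v w := lay ι v < T ∧ lay ι w = lay ι v ∧ (g (lay ι v)).adj (blk q0 ι v) (blk q0 ι w)
  map v w := (g (lay ι v)).map (blk q0 ι v) (blk q0 ι w)
  fib v w h a := (g (lay ι v)).fib _ _ h.2.2 a

/-- the game without edges -/
def emptyG (m0 : Fin (d * R) → Fin R) : DGame (Fin M) (Fin M) d R where
  adj _ _ := False
  map _ _ := m0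
  fib _ _ h _ := h.elim

/-- `G` in layer `i`, the games `g j` below and nothing above -/
noncomputable def ins (m0 : Fin (d * R) → Fin R) (g : ℕ → DGame (Fin M) (Fin M) d R) (i : ℕ)
    (G : DGame (Fin M) (Fin M) d R) : ℕ → DGame (Fin M) (Fin M) d R :=
  fun j => if j < i then g j else if j = i then G else emptyG m0

/-- the games `g j`, `j < i` -/
noncomputable def low (m0 : Fin (d * R) → Fin R) (g : ℕ → DGame (Fin M) (Fin M) d R) (i : ℕ) :
    ℕ → DGame (Fin M) (Fin M) d R :=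
  fun j => if j < i then g j else emptyG m0

theorem ins_self (m0 : Fin (d * R) → Fin R) (g : ℕ → DGame (Fin M) (Fin M) d R) (i : ℕ) :
    ins m0 g i (g i) = low m0 g (i + 1) := by
  funext j
  unfold ins low
  by_cases h1 : j < i
  · rw [if_pos h1, if_pos (by omega)]
  · by_cases h2 : j = i
    · subst h2
      rw [if_neg h1, if_pos rfl, if_pos (by omega)]
    · rw [if_neg h1, if_neg h2, if_neg (by omega)]

theorem ins_congr (m0 : Fin (d * R) → Fin R) {g g' : ℕ → DGame (Fin M) (Fin M) d R} {i : ℕ}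
    (G : DGame (Fin M) (Fin M) d R) (h : ∀ j < i, g j = g' j) : ins m0 g i G = ins m0 g' i G := by
  funext j
  unfold ins
  by_cases h1 : j < i
  · rw [if_pos h1, if_pos h1, h j h1]
  · rw [if_neg h1, if_neg h1]

theorem low_congr (m0 : Fin (d * R) → Fin R) {g g' : ℕ → DGame (Fin M) (Fin M) d R} {i : ℕ}
    (h : ∀ j < i, g j = g' j) : low m0 g i = low m0 g' i := by
  funext j
  unfold low
  by_cases h1 : j < i
  · rw [if_pos h1, if_pos h1, h j h1]
  · rw [if_neg h1, if_neg h1]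

/-- the inputs are nondecreasing -/
theorem glue_mono (q0 : Fin M) (ι : (Σ i : Fin T, Fin M × Fin (b i)) ↪ V)
    (m0 : Fin (d * R) → Fin R) (g : ℕ → DGame (Fin M) (Fin M) d R) (i : ℕ)
    (G : DGame (Fin M) (Fin M) d R) :
    ∀ f ∈ dInputs V V d R, f (glue q0 ι (low m0 g i)) ≤ f (glue q0 ι (ins m0 g i G)) := by
  rintro f (⟨v, w, q, rfl⟩ | ⟨c, rfl⟩)
  · by_cases h : (glue q0 ι (low m0 g i)).adj v w ∧ (glue q0 ι (low m0 g i)).map v w = q
    · have h2 : (glue q0 ι (ins m0 g i G)).adj v w ∧ (glue q0 ι (ins m0 g i G)).map v w = q := by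
        obtain ⟨⟨h1, h2, h3⟩, h4⟩ := h
        have hl : lay ι v < i := by
          by_contra hcon
          have : low m0 g i (lay ι v) = emptyG m0 := if_neg hcon
          rw [this] at h3
          exact h3
        have e1 : low m0 g i (lay ι v) = ins m0 g i G (lay ι v) := by
          unfold low ins
          rw [if_pos hl, if_pos hl]
        refine ⟨⟨h1, h2, by rw [← e1]; exact h3⟩, ?_⟩
        change (low m0 g i (lay ι v)).map _ _ = q at h4
        change (ins m0 g i G (lay ι v)).map _ _ = q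
        rw [← e1]
        exact h4
      simp only [h, h2, and_self, if_true, le_refl]
    · simp only [h, if_false]
      split_ifs <;> norm_num
  · exact le_rfl

/-- the inputs as functions of the game in layer `i` -/
theorem glue_inputs (q0 : Fin M) (ι : (Σ i : Fin T, Fin M × Fin (b i)) ↪ V)
    (m0 : Fin (d * R) → Fin R) (g : ℕ → DGame (Fin M) (Fin M) d R) (i : ℕ) (hi : i < T) :
    ∀ f ∈ dInputs V V d R, (fun G => f (glue q0 ι (ins m0 g i G))) ∈
      dInputs (Fin M) (Fin M) d R := by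
  rintro f (⟨v, w, q, rfl⟩ | ⟨c, rfl⟩)
  · by_cases h : lay ι v = i ∧ lay ι w = i
    · left
      refine ⟨blk q0 ι v, blk q0 ι w, q, ?_⟩
      funext G
      have e1 : ins m0 g i G (lay ι v) = G := by
        unfold ins
        rw [h.1, if_neg (lt_irrefl _), if_pos rfl]
      have e2 : ((glue q0 ι (ins m0 g i G)).adj v w ∧ (glue q0 ι (ins m0 g i G)).map v w = q) ↔
          (G.adj (blk q0 ι v) (blk q0 ι w) ∧ G.map (blk q0 ι v) (blk q0 ι w) = q) := by
        change ((lay ι v < T ∧ lay ι w = lay ι v ∧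
          (ins m0 g i G (lay ι v)).adj (blk q0 ι v) (blk q0 ι w)) ∧
          (ins m0 g i G (lay ι v)).map (blk q0 ι v) (blk q0 ι w) = q) ↔ _
        rw [e1]
        constructor
        · rintro ⟨⟨_, _, h3⟩, h4⟩
          exact ⟨h3, h4⟩
        · rintro ⟨h3, h4⟩
          exact ⟨⟨by omega, by omega, h3⟩, h4⟩
      simp only [e2]
    · right
      refine ⟨if ((glue q0 ι (low m0 g i)).adj v w ∧ (glue q0 ι (low m0 g i)).map v w = q) then 1
        else 0, ?_⟩
      funext G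
      have e2 : ((glue q0 ι (ins m0 g i G)).adj v w ∧ (glue q0 ι (ins m0 g i G)).map v w = q) ↔
          ((glue q0 ι (low m0 g i)).adj v w ∧ (glue q0 ι (low m0 g i)).map v w = q) := by
        change ((lay ι v < T ∧ lay ι w = lay ι v ∧
          (ins m0 g i G (lay ι v)).adj (blk q0 ι v) (blk q0 ι w)) ∧
          (ins m0 g i G (lay ι v)).map (blk q0 ι v) (blk q0 ι w) = q) ↔
          ((lay ι v < T ∧ lay ι w = lay ι v ∧
          (low m0 g i (lay ι v)).adj (blk q0 ι v) (blk q0 ι w)) ∧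
          (low m0 g i (lay ι v)).map (blk q0 ι v) (blk q0 ι w) = q)
        by_cases hv : lay ι v = i
        · constructor
          · rintro ⟨⟨_, h2, _⟩, _⟩
            exact absurd ⟨hv, h2.trans hv⟩ h
          · rintro ⟨⟨_, h2, _⟩, _⟩
            exact absurd ⟨hv, h2.trans hv⟩ h
        · have e1 : ins m0 g i G (lay ι v) = low m0 g i (lay ι v) := by
            unfold ins low
            by_cases h1 : lay ι v < i
            · rw [if_pos h1, if_pos h1]
            · rw [if_neg h1, if_neg h1, if_neg hv]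
          rw [e1]
      simp only [e2]
  · exact Or.inr ⟨c, rfl⟩

/-- value one -/
theorem glue_yes (q0 : Fin M) (ι : (Σ i : Fin T, Fin M × Fin (b i)) ↪ V)
    (m0 : Fin (d * R) → Fin R) (g : ℕ → DGame (Fin M) (Fin M) d R) (hg : ∀ j, DYes (g j)) (i : ℕ)
    (hi : i < T) (hb : 0 < b i) : DYes (glue q0 ι (low m0 g (i + 1))) := by
  choose hE A C hAC using hg
  constructor
  · obtain ⟨v, w, h⟩ := hE i
    refine ⟨ι ⟨⟨i, hi⟩, v, ⟨0, hb⟩⟩, ι ⟨⟨i, hi⟩, w, ⟨0, hb⟩⟩, ?_, ?_, ?_⟩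
    · rw [lay_ι]
      exact hi
    · rw [lay_ι, lay_ι]
    · rw [lay_ι, blk_ι, blk_ι]
      have : low m0 g (i + 1) ((⟨i, hi⟩ : Fin T) : ℕ) = g i := if_pos (Nat.lt_succ_self i)
      rw [this]
      exact h
  · refine ⟨fun v => A (lay ι v) (blk q0 ι v), fun w => C (lay ι w) (blk q0 ι w), ?_⟩
    rintro v w ⟨_, h2, h3⟩
    change (low m0 g (i + 1) (lay ι v)).map _ _ (C (lay ι w) (blk q0 ι w)) = _
    rw [h2]
    by_cases h4 : lay ι v < i + 1
    · have e1 : low m0 g (i + 1) (lay ι v) = g (lay ι v) := if_pos h4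
      rw [e1] at h3 ⊢
      exact hAC _ _ _ h3
    · have e1 : low m0 g (i + 1) (lay ι v) = emptyG m0 := if_neg h4
      rw [e1] at h3
      exact h3.elim

/-- the number of vertices in the lower layers -/
theorem card_low [Fintype V] (ι : (Σ i : Fin T, Fin M × Fin (b i)) ↪ V) (i : ℕ) (hi : i ≤ T) :
    (univ.filter fun v : V => lay ι v < i).card ≤ ∑ j ∈ range i, M * b j := by
  have h1 : (univ.filter fun v : V => lay ι v < i) ⊆
      (univ : Finset (Fin i)).biUnion fun j => univ.image fun s : Fin M × Fin (b j) =>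
        ι ⟨⟨j, by omega⟩, s⟩ := by
    intro v hv
    have hv2 := (mem_filter.1 hv).2
    obtain ⟨q, a, hqa⟩ := exists_ι ι v ⟨lay ι v, by omega⟩ rfl
    exact mem_biUnion.2 ⟨⟨lay ι v, hv2⟩, mem_univ _, mem_image.2 ⟨(q, a), mem_univ _, hqa.symm⟩⟩
  refine (card_le_card h1).trans (card_biUnion_le.trans ?_)
  rw [← Fin.sum_univ_eq_sum_range (fun j => M * b j)]
  apply sum_le_sum
  intro j _
  refine card_image_le.trans ?_
  rw [card_univ, Fintype.card_prod, Fintype.card_fin, Fintype.card_fin]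

/-- value less than `ε` -/
theorem glue_no [Fintype V] (hd : 1 ≤ d) (hR : 1 ≤ R) (q0 : Fin M)
    (ι : (Σ i : Fin T, Fin M × Fin (b i)) ↪ V)
    (m0 : Fin (d * R) → Fin R) (g : ℕ → DGame (Fin M) (Fin M) d R) (i : ℕ) (hi : i < T)
    (hb : 0 < b i) (ε : ℝ) (hε : 0 < ε)
    (hlow : ((∑ j ∈ range i, M * b j : ℕ) : ℝ) ^ 2 ≤ ε / 2 * (b i : ℝ) ^ 2)
    (G : DGame (Fin M) (Fin M) d R) (hG : DNo (ε / 2) G) : DNo ε (glue q0 ι (ins m0 g i G)) := by
  intro A C
  obtain ⟨E, hE⟩ : ∃ E, E = (univ.filter fun e : Fin M × Fin M => G.adj e.1 e.2).card := ⟨_, rfl⟩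
  have hE1 : 1 ≤ E := by
    by_contra h0
    have h1 := hG (fun _ => ⟨0, hR⟩) (fun _ => ⟨0, Nat.mul_pos hd hR⟩)
    rw [← hE] at h1
    have h2 : E = 0 := by omega
    rw [h2, Nat.cast_zero, mul_zero] at h1
    exact absurd h1 (not_lt.2 (Nat.cast_nonneg _))
  -- the labellings of the copies
  set κ : Fin (b i) → Fin M → V := fun a q => ι ⟨⟨i, hi⟩, q, a⟩ with hκ
  set S : Finset (V × V) := univ.filter fun e : V × V => (glue q0 ι (ins m0 g i G)).adj e.1 e.2 ∧
    (glue q0 ι (ins m0 g i G)).map e.1 e.2 (C e.2) = A e.1 with hS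
  set SG : Fin (b i) × Fin (b i) → Finset (Fin M × Fin M) := fun p =>
    univ.filter fun e : Fin M × Fin M => G.adj e.1 e.2 ∧
      G.map e.1 e.2 (C (κ p.2 e.2)) = A (κ p.1 e.1) with hSG
  set Lo : Finset V := univ.filter fun v : V => lay ι v < i with hLo
  have hins : ins m0 g i G i = G := by
    unfold ins
    rw [if_neg (lt_irrefl _), if_pos rfl]
  have hcov : S ⊆ (Lo ×ˢ Lo) ∪ (univ : Finset (Fin (b i) × Fin (b i))).biUnion fun p =>
      (SG p).image fun e => (κ p.1 e.1, κ p.2 e.2) := by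
    rintro ⟨v, w⟩ hvw
    obtain ⟨⟨h1, h2, h3⟩, h4⟩ := (mem_filter.1 hvw).2
    rcases lt_trichotomy (lay ι v) i with h5 | h5 | h5
    · apply mem_union_left
      have h6 : lay ι w < i := by
        have : lay ι w = lay ι v := h2
        omega
      exact mem_product.2 ⟨mem_filter.2 ⟨mem_univ _, h5⟩, mem_filter.2 ⟨mem_univ _, h6⟩⟩
    · apply mem_union_right
      have h6 : lay ι w = i := by
        have : lay ι w = lay ι v := h2
        omega
      obtain ⟨q, a, rfl⟩ := exists_ι ι v ⟨i, hi⟩ h5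
      obtain ⟨q', a', rfl⟩ := exists_ι ι w ⟨i, hi⟩ h6
      refine mem_biUnion.2 ⟨(a, a'), mem_univ _, mem_image.2 ⟨(q, q'), mem_filter.2 ⟨mem_univ _, ?_⟩,
        rfl⟩⟩
      change (ins m0 g i G (lay ι (ι ⟨⟨i, hi⟩, q, a⟩))).adj (blk q0 ι (ι ⟨⟨i, hi⟩, q, a⟩))
        (blk q0 ι (ι ⟨⟨i, hi⟩, q', a'⟩)) at h3
      change (ins m0 g i G (lay ι (ι ⟨⟨i, hi⟩, q, a⟩))).map (blk q0 ι (ι ⟨⟨i, hi⟩, q, a⟩))
        (blk q0 ι (ι ⟨⟨i, hi⟩, q', a'⟩)) (C (ι ⟨⟨i, hi⟩, q', a'⟩)) = A (ι ⟨⟨i, hi⟩, q, a⟩) at h4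
      rw [h5, hins, blk_ι, blk_ι] at h3 h4
      exact ⟨h3, h4⟩
    · exfalso
      have h6 : ins m0 g i G (lay ι v) = emptyG m0 := by
        unfold ins
        rw [if_neg (by omega), if_neg (by omega)]
      change (ins m0 g i G (lay ι v)).adj _ _ at h3
      rw [h6] at h3
      exact h3
  have hcard : S.card ≤ (∑ j ∈ range i, M * b j) ^ 2 + ∑ p, (SG p).card := by
    refine (card_le_card hcov).trans ((card_union_le _ _).trans (Nat.add_le_add ?_ ?_))
    · rw [card_product, pow_two]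
      exact Nat.mul_le_mul (card_low ι i hi.le) (card_low ι i hi.le)
    · exact card_biUnion_le.trans (sum_le_sum fun p _ => card_image_le)
  have hsum : ((∑ p, (SG p).card : ℕ) : ℝ) < (b i : ℝ) ^ 2 * (ε / 2 * E) := by
    have h1 : ∀ p, ((SG p).card : ℝ) < ε / 2 * E := by
      intro p
      have := hG (fun q => A (κ p.1 q)) (fun q => C (κ p.2 q))
      rw [← hE] at this
      exact this
    have : Nonempty (Fin (b i) × Fin (b i)) := ⟨(⟨0, hb⟩, ⟨0, hb⟩)⟩
    rw [Nat.cast_sum]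
    calc ∑ p, ((SG p).card : ℝ) < ∑ _p : Fin (b i) × Fin (b i), ε / 2 * E :=
          sum_lt_sum_of_nonempty univ_nonempty fun p _ => h1 p
      _ = (b i : ℝ) ^ 2 * (ε / 2 * E) := by
          rw [sum_const, card_univ, Fintype.card_prod, Fintype.card_fin, nsmul_eq_mul]
          push_cast
          ring
  have hedges : (b i) ^ 2 * E ≤
      (univ.filter fun e : V × V => (glue q0 ι (ins m0 g i G)).adj e.1 e.2).card := by
    have h1 : (((univ : Finset (Fin (b i) × Fin (b i))) ×ˢ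
        (univ.filter fun e : Fin M × Fin M => G.adj e.1 e.2)).image
          fun s => (κ s.1.1 s.2.1, κ s.1.2 s.2.2)) ⊆
        (univ.filter fun e : V × V => (glue q0 ι (ins m0 g i G)).adj e.1 e.2) := by
      intro e he
      obtain ⟨⟨⟨a, a'⟩, q, q'⟩, hs, rfl⟩ := mem_image.1 he
      have hadj := (mem_filter.1 (mem_product.1 hs).2).2
      refine mem_filter.2 ⟨mem_univ _, ?_, ?_, ?_⟩
      · change lay ι (ι ⟨⟨i, hi⟩, q, a⟩) < T
        rw [lay_ι]
        exact hi
      · change lay ι (ι ⟨⟨i, hi⟩, q', a'⟩) = lay ι (ι ⟨⟨i, hi⟩, q, a⟩)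
        rw [lay_ι, lay_ι]
      · change (ins m0 g i G (lay ι (ι ⟨⟨i, hi⟩, q, a⟩))).adj (blk q0 ι (ι ⟨⟨i, hi⟩, q, a⟩))
          (blk q0 ι (ι ⟨⟨i, hi⟩, q', a'⟩))
        rw [lay_ι, blk_ι, blk_ι]
        change (ins m0 g i G i).adj q q'
        rw [hins]
        exact hadj
    have h2 := card_le_card h1
    rw [card_image_of_injective, card_product, card_univ, Fintype.card_prod, Fintype.card_fin,
      ← hE, ← pow_two] at h2
    · exact h2
    · rintro ⟨⟨a, a'⟩, q, q'⟩ ⟨⟨c, c'⟩, u, u'⟩ h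
      have g1 := congrArg Prod.fst h
      have g2 := congrArg Prod.snd h
      have g3 := ι.injective g1
      have g4 := ι.injective g2
      simp only [Sigma.mk.injEq, heq_eq_eq, Prod.mk.injEq, true_and] at g3 g4
      obtain ⟨rfl, rfl⟩ := g3
      obtain ⟨rfl, rfl⟩ := g4
      rfl
  have hEr : (1 : ℝ) ≤ E := by exact_mod_cast hE1
  have hb2 : (0 : ℝ) < (b i : ℝ) ^ 2 := by
    have : (0 : ℝ) < b i := by exact_mod_cast hb
    positivity
  have hedr : (b i : ℝ) ^ 2 * E ≤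
      ((univ.filter fun e : V × V => (glue q0 ι (ins m0 g i G)).adj e.1 e.2).card : ℝ) := by
    exact_mod_cast hedges
  have hcr : (S.card : ℝ) ≤ ((∑ j ∈ range i, M * b j : ℕ) : ℝ) ^ 2 + ((∑ p, (SG p).card : ℕ) : ℝ) := by
    exact_mod_cast hcard
  have hk1 : ε / 2 * (b i : ℝ) ^ 2 ≤ ε / 2 * ((b i : ℝ) ^ 2 * E) := by
    apply mul_le_mul_of_nonneg_left _ (by positivity)
    exact le_mul_of_one_le_right hb2.le hEr
  have hk2 : ε * ((b i : ℝ) ^ 2 * E) ≤
      ε * ((univ.filter fun e : V × V => (glue q0 ι (ins m0 g i G)).adj e.1 e.2).card : ℝ) :=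
    mul_le_mul_of_nonneg_left hedr hε.le
  change (S.card : ℝ) < _
  have hk3 : (b i : ℝ) ^ 2 * (ε / 2 * E) = ε / 2 * ((b i : ℝ) ^ 2 * E) := by ring
  rw [hk3] at hsum
  linarith

end Pool.Agent.NH48.FN
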