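import Pool.Agent.H630VC.Model

/-! # Circuits of monotone real gates with further gates: the model and the main lemma -/

set_option autoImplicit false

open scoped Classical
open Finset

namespace Pool.Agent.NH48.FN

open H630VC (Prog Mono2)

/-- `GProg inp p l`: `l` is the list of the functions computed at the gates of a circuit (last gate
first).  Each gate is an input gate, that is a function from `inp`, or it applies an arbitrary
nondecreasing real function to the values of two earlier gates, or it is a free gate with some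
number `w` of input wires: it compares the values `c j x` of `w` earlier gates with thresholds
`θ j` and applies an arbitrary function `h` to the results of these `w` comparisons (for example, the
negation gate has `w = 1`).  `p` is the product of the numbers `w + 1` over the free gates. -/
inductive GProg {I : Type*} (inp : Set (I → ℝ)) : ℕ → List (I → ℝ) → Prop
  | nil : GProg inp 1 []
  | input {p : ℕ} {l : List (I → ℝ)} {f : I → ℝ} : GProg inp p l → f ∈ inp → GProg inp p (f :: l)
  | gate {p : ℕ} {l : List (I → ℝ)} {φ : ℝ → ℝ → ℝ} {f g : I → ℝ} :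
      GProg inp p l → Mono2 φ → f ∈ l → g ∈ l → GProg inp p ((fun x => φ (f x) (g x)) :: l)
  | free {p : ℕ} {l : List (I → ℝ)} (w : ℕ) (c : Fin w → I → ℝ) (θ : Fin w → ℝ)
      (h : (Fin w → Prop) → ℝ) :
      GProg inp p l → (∀ j, c j ∈ l) → GProg inp (p * (w + 1)) ((fun x => h fun j => θ j ≤ c j x) :: l)

variable {I : Type*} {inp : Set (I → ℝ)}

theorem prog_mono {l : List (I → ℝ)} (hl : Prog inp l) {x y : I} (hxy : ∀ g ∈ inp, g x ≤ g y) :
    ∀ f ∈ l, f x ≤ f y := by
  induction hl with
  | nil => simp
  | input _ hf ih =>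
    intro f h
    rcases List.mem_cons.1 h with rfl | h
    · exact hxy _ hf
    · exact ih f h
  | gate _ hφ hf hg ih =>
    intro f h
    rcases List.mem_cons.1 h with rfl | h
    · exact hφ _ _ _ _ (ih _ hf) (ih _ hg)
    · exact ih f h

/-- upper sets of real numbers -/
def Up (B : Set ℝ) : Prop := ∀ a b, a ≤ b → a ∈ B → b ∈ B

/-- one more gate for each gate tests whether its value lies in an upper set -/
theorem add_tests {l : List (I → ℝ)} (hl : Prog inp l) (g : I → ℝ) (hg : g ∈ l) :
    ∀ L : List ((I → ℝ) × Set ℝ), (∀ e ∈ L, e.1 ∈ l ∧ Up e.2) →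
      ∃ l' : List (I → ℝ), Prog inp (l' ++ l) ∧ l'.length = L.length ∧
        (fun x => if ∃ e ∈ L, e.1 x ∈ e.2 then max 1 (g x) else g x) ∈ l' ++ l := by
  intro L
  induction L with
  | nil =>
    intro _
    refine ⟨[], hl, rfl, ?_⟩
    simpa using hg
  | cons a L ih =>
    intro h
    obtain ⟨l', h1, h2, h3⟩ := ih fun e he => h e (List.mem_cons_of_mem _ he)
    obtain ⟨ha, hup⟩ := h a List.mem_cons_self
    refine ⟨(fun x => (fun u v : ℝ => if u ∈ a.2 then max 1 v else v) (a.1 x)
      ((fun x => if ∃ e ∈ L, e.1 x ∈ e.2 then max 1 (g x) else g x) x)) :: l', ?_, by simp [h2], ?_⟩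
    · refine Prog.gate (φ := fun u v : ℝ => if u ∈ a.2 then max 1 v else v) h1 ?_
        (List.mem_append_right _ ha) h3
      intro u u' v v' hu hv
      by_cases hm : u ∈ a.2
      · have hm' : u' ∈ a.2 := hup _ _ hu hm
        simp only [hm, hm', if_true]
        exact max_le_max le_rfl hv
      · by_cases hm' : u' ∈ a.2
        · simp only [hm, hm', if_true, if_false]
          exact hv.trans (le_max_right _ _)
        · simpa only [hm, hm', if_false] using hv
    · refine List.mem_append_left _ (List.mem_cons.2 (Or.inl ?_))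
      funext x
      by_cases hx : a.1 x ∈ a.2
      · have h4 : ∃ e ∈ a :: L, e.1 x ∈ e.2 := ⟨a, List.mem_cons_self, hx⟩
        simp only [h4, hx, if_true]
        split_ifs
        · rw [← max_assoc, max_self]
        · rfl
      · have h4 : (∃ e ∈ a :: L, e.1 x ∈ e.2) ↔ ∃ e ∈ L, e.1 x ∈ e.2 := by
          constructor
          · rintro ⟨e, he, hex⟩
            rcases List.mem_cons.1 he with rfl | he
            · exact absurd hex hx
            · exact ⟨e, he, hex⟩
          · rintro ⟨e, he, hex⟩
            exact ⟨e, List.mem_cons_of_mem _ he, hex⟩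
        simp only [h4, hx, if_false]

/-- the invariant: the rank `r` of the state of the free gates, and for each base point `x0` the
circuit in which the free gates are replaced by their values at `x0` -/
theorem inv (hc : ∀ c : ℝ, (fun _ => c) ∈ inp) {p : ℕ} {l : List (I → ℝ)} (hl : GProg inp p l) :
    ∃ r : I → ℕ, (∀ x, r x < p) ∧ ∀ x0 : I,
      ∃ L : List ((I → ℝ) × (I → ℝ) × Set ℝ), L.map (fun e => e.1) = l ∧
        Prog inp (L.map fun e => e.2.1) ∧ (∀ e ∈ L, Up e.2.2) ∧
        ∀ y, (∀ g ∈ inp, g x0 ≤ g y) →
          (r y = r x0 ∧ (∀ e ∈ L, e.2.1 y = e.1 y) ∧ ∀ e ∈ L, e.2.1 y ∉ e.2.2) ∨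
          (r x0 < r y ∧ ∃ e ∈ L, e.2.1 y ∈ e.2.2) := by
  induction hl with
  | nil =>
    refine ⟨fun _ => 0, fun _ => Nat.one_pos, fun x0 => ⟨[], rfl, Prog.nil, by simp, ?_⟩⟩
    intro y _
    left
    simp
  | @input p l f _ hf ih =>
    obtain ⟨r, hr, h⟩ := ih
    refine ⟨r, hr, fun x0 => ?_⟩
    obtain ⟨L, h1, h2, h3, h4⟩ := h x0
    refine ⟨(f, f, ∅) :: L, by simp [h1], by simpa using Prog.input h2 hf, ?_, ?_⟩
    · intro e he
      rcases List.mem_cons.1 he with rfl | he
      · exact fun _ _ _ h => h
      · exact h3 e he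
    · intro y hy
      rcases h4 y hy with ⟨g1, g2, g3⟩ | ⟨g1, e, he, g2⟩
      · left
        refine ⟨g1, ?_, ?_⟩
        · intro e he
          rcases List.mem_cons.1 he with rfl | he
          · rfl
          · exact g2 e he
        · intro e he
          rcases List.mem_cons.1 he with rfl | he
          · exact fun h => h
          · exact g3 e he
      · exact Or.inr ⟨g1, e, List.mem_cons_of_mem _ he, g2⟩
  | @gate p l φ f g _ hφ hf hg ih =>
    obtain ⟨r, hr, h⟩ := ih
    refine ⟨r, hr, fun x0 => ?_⟩
    obtain ⟨L, h1, h2, h3, h4⟩ := h x0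
    rw [← h1] at hf hg
    obtain ⟨ef, hef, rfl⟩ := List.mem_map.1 hf
    obtain ⟨eg, heg, rfl⟩ := List.mem_map.1 hg
    refine ⟨(fun x => φ (ef.1 x) (eg.1 x), fun x => φ (ef.2.1 x) (eg.2.1 x), ∅) :: L, by simp [h1],
      ?_, ?_, ?_⟩
    · exact Prog.gate h2 hφ (List.mem_map.2 ⟨ef, hef, rfl⟩) (List.mem_map.2 ⟨eg, heg, rfl⟩)
    · intro e he
      rcases List.mem_cons.1 he with rfl | he
      · exact fun _ _ _ h => h
      · exact h3 e he
    · intro y hy
      rcases h4 y hy with ⟨g1, g2, g3⟩ | ⟨g1, e, he, g2⟩
      · left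
        refine ⟨g1, ?_, ?_⟩
        · intro e he
          rcases List.mem_cons.1 he with rfl | he
          · simp only [g2 ef hef, g2 eg heg]
          · exact g2 e he
        · intro e he
          rcases List.mem_cons.1 he with rfl | he
          · exact fun h => h
          · exact g3 e he
      · exact Or.inr ⟨g1, e, List.mem_cons_of_mem _ he, g2⟩
  | @free p l w c θ hh _ hcl ih =>
    obtain ⟨r, hr, h⟩ := ih
    have hcard : ∀ x, (univ.filter fun j => θ j ≤ c j x).card ≤ w := fun x =>
      (card_le_univ _).trans (Fintype.card_fin w).le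
    refine ⟨fun x => r x * (w + 1) + (univ.filter fun j => θ j ≤ c j x).card, ?_, fun x0 => ?_⟩
    · intro x
      have h1 := hr x
      have h2 := hcard x
      calc r x * (w + 1) + (univ.filter fun j => θ j ≤ c j x).card < r x * (w + 1) + (w + 1) := by
            omega
        _ = (r x + 1) * (w + 1) := by ring
        _ ≤ p * (w + 1) := Nat.mul_le_mul_right _ h1
    obtain ⟨L, h1, h2, h3, h4⟩ := h x0
    refine ⟨((fun x => hh fun j => θ j ≤ c j x), (fun _ => hh fun j => θ j ≤ c j x0), ∅) ::
      L.map (fun e => (e.1, e.2.1, e.2.2 ∪ {v | ∃ j, e.1 = c j ∧ ¬ θ j ≤ c j x0 ∧ θ j ≤ v})),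
      ?_, ?_, ?_, ?_⟩
    · simp only [List.map_cons, List.map_map]
      refine congrArg _ ?_
      rw [← h1]
      apply List.map_congr_left
      intro e _
      rfl
    · simp only [List.map_cons, List.map_map]
      refine Prog.input ?_ (hc _)
      have : (L.map ((fun e : (I → ℝ) × (I → ℝ) × Set ℝ => e.2.1) ∘ fun e => (e.1, e.2.1, e.2.2 ∪
          {v | ∃ j, e.1 = c j ∧ ¬ θ j ≤ c j x0 ∧ θ j ≤ v}))) = L.map fun e => e.2.1 := by
        apply List.map_congr_left
        intro e _
        rfl
      rw [this]
      exact h2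
    · intro e he
      rcases List.mem_cons.1 he with rfl | he
      · exact fun _ _ _ h => h
      · obtain ⟨e', he', rfl⟩ := List.mem_map.1 he
        intro a b hab ha
        rcases ha with ha | ⟨j, g1, g2, g3⟩
        · exact Or.inl (h3 e' he' a b hab ha)
        · exact Or.inr ⟨j, g1, g2, g3.trans hab⟩
    · intro y hy
      rcases h4 y hy with ⟨g1, g2, g3⟩ | ⟨g1, e, he, g2⟩
      · -- the states of the earlier gates agree
        have hcm : ∀ j, c j x0 ≤ c j y := by
          intro j
          have hj := hcl j
          rw [← h1] at hj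
          obtain ⟨e, he, hej⟩ := List.mem_map.1 hj
          have k1 := prog_mono h2 hy e.2.1 (List.mem_map.2 ⟨e, he, rfl⟩)
          have k2 : e.2.1 x0 = e.1 x0 := by
            rcases h4 x0 (fun _ _ => le_rfl) with ⟨_, k, _⟩ | ⟨k, _⟩
            · exact k e he
            · exact absurd k (lt_irrefl _)
          rw [k2, g2 e he, hej] at k1
          exact k1
        by_cases hcross : ∃ j, ¬ θ j ≤ c j x0 ∧ θ j ≤ c j y
        · right
          obtain ⟨j, k1, k2⟩ := hcross
          refine ⟨?_, ?_⟩
          · show r x0 * (w + 1) + _ < r y * (w + 1) + _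
            rw [g1]
            apply Nat.add_lt_add_left
            apply card_lt_card
            rw [ssubset_iff_of_subset]
            · exact ⟨j, mem_filter.2 ⟨mem_univ _, k2⟩, fun h => k1 (mem_filter.1 h).2⟩
            · intro i hi
              exact mem_filter.2 ⟨mem_univ _, (mem_filter.1 hi).2.trans (hcm i)⟩
          · have hj := hcl j
            rw [← h1] at hj
            obtain ⟨e, he, hej⟩ := List.mem_map.1 hj
            refine ⟨_, List.mem_cons_of_mem _ (List.mem_map.2 ⟨e, he, rfl⟩), Or.inr ⟨j, hej, k1, ?_⟩⟩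
            show θ j ≤ e.2.1 y
            rw [g2 e he, hej]
            exact k2
        · left
          have hsame : (fun j => θ j ≤ c j y) = fun j => θ j ≤ c j x0 := by
            funext j
            apply propext
            constructor
            · intro k2
              by_contra k1
              exact hcross ⟨j, k1, k2⟩
            · intro k1
              exact k1.trans (hcm j)
          refine ⟨?_, ?_, ?_⟩
          · show r y * (w + 1) + (univ.filter fun j => θ j ≤ c j y).card =
              r x0 * (w + 1) + (univ.filter fun j => θ j ≤ c j x0).card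
            rw [g1]
            have : (univ.filter fun j => θ j ≤ c j y) = univ.filter fun j => θ j ≤ c j x0 := by
              apply filter_congr
              intro j _
              exact iff_of_eq (congrFun hsame j)
            rw [this]
          · intro e he
            rcases List.mem_cons.1 he with rfl | he
            · exact (congrArg hh hsame).symm
            · obtain ⟨e', he', rfl⟩ := List.mem_map.1 he
              exact g2 e' he'
          · intro e he
            rcases List.mem_cons.1 he with rfl | he
            · exact fun h => h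
            · obtain ⟨e', he', rfl⟩ := List.mem_map.1 he
              rintro (k | ⟨j, k1, k2, k3⟩)
              · exact g3 e' he' k
              · apply hcross
                refine ⟨j, k2, ?_⟩
                have k4 : θ j ≤ e'.2.1 y := k3
                rw [g2 e' he', k1] at k4
                exact k4
      · right
        refine ⟨?_, ?_⟩
        · show r x0 * (w + 1) + _ < r y * (w + 1) + _
          have k1 := hcard x0
          have k2 : (r x0 + 1) * (w + 1) ≤ r y * (w + 1) := Nat.mul_le_mul_right _ g1
          have k3 : (r x0 + 1) * (w + 1) = r x0 * (w + 1) + (w + 1) := by ring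
          omega
        · exact ⟨_, List.mem_cons_of_mem _ (List.mem_map.2 ⟨e, he, rfl⟩), Or.inl g2⟩

/-- **Main lemma.**  The state of the free gates has a rank `r < p`, and above each base point `x0`
there is a circuit of monotone real gates, of twice the size, that agrees with the given one at the
points with the rank of `x0`, and is at least one at all other points. -/
theorem main (hc : ∀ c : ℝ, (fun _ => c) ∈ inp) {p : ℕ} {l : List (I → ℝ)} (hl : GProg inp p l)
    {f : I → ℝ} (hf : f ∈ l) :
    ∃ r : I → ℕ, (∀ x, r x < p) ∧ ∀ x0 : I, ∃ (l' : List (I → ℝ)) (f' : I → ℝ), Prog inp l' ∧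
      f' ∈ l' ∧ l'.length = 2 * l.length ∧
      ∀ y, (∀ g ∈ inp, g x0 ≤ g y) →
        (r y = r x0 ∧ f' y = f y) ∨ (r x0 < r y ∧ 1 ≤ f' y) := by
  obtain ⟨r, hr, h⟩ := inv hc hl
  refine ⟨r, hr, fun x0 => ?_⟩
  obtain ⟨L, h1, h2, h3, h4⟩ := h x0
  rw [← h1] at hf
  obtain ⟨e, he, rfl⟩ := List.mem_map.1 hf
  obtain ⟨l', k1, k2, k3⟩ := add_tests h2 e.2.1 (List.mem_map.2 ⟨e, he, rfl⟩)
    (L.map fun e => (e.2.1, e.2.2)) (by
      intro a ha
      obtain ⟨b, hb, rfl⟩ := List.mem_map.1 ha
      exact ⟨List.mem_map.2 ⟨b, hb, rfl⟩, h3 b hb⟩)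
  refine ⟨_, _, k1, k3, ?_, ?_⟩
  · rw [List.length_append, k2, List.length_map, List.length_map, ← h1, List.length_map]
    ring
  · intro y hy
    rcases h4 y hy with ⟨g1, g2, g3⟩ | ⟨g1, a, ha, g2⟩
    · left
      refine ⟨g1, ?_⟩
      have : ¬ ∃ a ∈ L.map (fun e => (e.2.1, e.2.2)), a.1 y ∈ a.2 := by
        rintro ⟨a, ha, hay⟩
        obtain ⟨b, hb, rfl⟩ := List.mem_map.1 ha
        exact g3 b hb hay
      simp only [this, if_false]
      exact g2 e he
    · right
      refine ⟨g1, ?_⟩
      have : ∃ a ∈ L.map (fun e => (e.2.1, e.2.2)), a.1 y ∈ a.2 :=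
        ⟨_, List.mem_map.2 ⟨a, ha, rfl⟩, g2⟩
      simp only [this, if_true]
      exact le_max_left _ _

end Pool.Agent.NH48.FN
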