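import Pool.Agent.NH48.FN.Base
import Pool.Agent.NH48.FN.Model
import Pool.Agent.NH48.FN.Glue
import Pool.Agent.NH48.FN.Avg

/-! # d-to-1 games and circuits with few gates that are not monotone -/

set_option autoImplicit false

open scoped Classical
open Finset

namespace Pool.Agent.NH48.FN

open H589DT
open H630VC (Prog Mono2)

/-- substitution -/
theorem prog_comp {I J : Type} {inp : Set (I → ℝ)} {inp' : Set (J → ℝ)} (h : J → I)
    (hi : ∀ f ∈ inp, (fun y => f (h y)) ∈ inp') {l : List (I → ℝ)} (hl : Prog inp l) :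
    Prog inp' (l.map fun f y => f (h y)) := by
  induction hl with
  | nil => exact Prog.nil
  | input _ hf ih => exact Prog.input ih (hi _ hf)
  | @gate l φ f g _ hφ hf hg ih =>
    exact Prog.gate ih hφ (List.mem_map.2 ⟨f, hf, rfl⟩) (List.mem_map.2 ⟨g, hg, rfl⟩)

theorem geom (s M : ℕ) (i : ℕ) :
    s * (∑ j ∈ range i, M * (s * M + 1) ^ j) + 1 = (s * M + 1) ^ i := by
  induction i with
  | zero => simp
  | succ i ih =>
    rw [sum_range_succ, mul_add, pow_succ]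
    generalize (∑ j ∈ range i, M * (s * M + 1) ^ j) = σ at ih ⊢
    generalize (s * M + 1) ^ i = P at ih ⊢
    rw [← ih]
    ring

/-- monotonicity of the numbers of elements, for all decision procedures -/
theorem cardF {A : Type} (s : Finset A) (P Q : A → Prop) (i1 : DecidablePred P)
    (i2 : DecidablePred Q) (h : ∀ a, P a → Q a) :
    (@filter A P i1 s).card ≤ (@filter A Q i2 s).card := by
  apply card_le_card
  intro a ha
  rw [mem_filter] at ha ⊢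
  exact ⟨ha.1, h a ha.2⟩

theorem cardFR {T : ℕ} (P : Fin T → Prop) (Q : ℕ → Prop) (i1 : DecidablePred P)
    (i2 : DecidablePred Q) (h : ∀ i : Fin T, P i → Q i) :
    (@filter (Fin T) P i1 univ).card ≤ (@filter ℕ Q i2 (range T)).card := by
  apply card_le_card_of_injOn Fin.val
  · intro i hi
    have hi2 := mem_coe.1 hi
    rw [mem_filter] at hi2
    apply mem_coe.2
    rw [mem_filter]
    exact ⟨mem_range.2 i.2, h i hi2.2⟩
  · exact Fin.val_injective.injOn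

/-- the lower bound in terms of the parameter `L` -/
theorem core (d : ℕ) (hd : 2 ≤ d) (ε : ℝ) (hε : 0 < ε) :
    ∃ R L1 s : ℕ, 1 ≤ R ∧ 1 ≤ s ∧ ∀ L : ℕ, L1 ≤ L → ∀ p : ℕ, 1 ≤ p → ∀ N : ℕ,
      (s * (64 * L ^ 13 + 1) + 1) ^ (4 * p - 3) ≤ N →
      ∀ (Ω : Type) [Fintype Ω] [Nonempty Ω] (l : Ω → List (DGame (Fin N) (Fin N) d R → ℝ)),
      (∀ ω, ∃ q ≤ p, GProg (dInputs (Fin N) (Fin N) d R) q (l ω)) → DDecides ε l →
      ∃ ω, 2 ^ L ≤ 2 * (l ω).length := by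
  obtain ⟨R, L1, hR, hbase⟩ := base_L d hd (ε / 2) (by positivity)
  obtain ⟨s, hs⟩ : ∃ s, s = Nat.ceil (2 / ε) + 1 := ⟨_, rfl⟩
  have hs1 : 1 ≤ s := by omega
  have hs2 : 2 / ε ≤ (s : ℝ) ^ 2 := by
    have h1 : 2 / ε ≤ (Nat.ceil (2 / ε) : ℝ) := Nat.le_ceil _
    have h2 : (Nat.ceil (2 / ε) : ℝ) ≤ s := by rw [hs]; push_cast; linarith
    have h3 : (1 : ℝ) ≤ s := by exact_mod_cast hs1
    nlinarith
  refine ⟨R, L1, s, hR, hs1, ?_⟩
  intro L hL p hp N hN Ω _ _ l hl hdec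
  obtain ⟨M, hM⟩ : ∃ M, M = 64 * L ^ 13 + 1 := ⟨_, rfl⟩
  have hM1 : 1 ≤ M := by omega
  obtain ⟨X, Y, _, _, _, _, pos, neg, hpos, hneg, hard⟩ := hbase L hL M hM.ge
  rw [← hM] at hN
  obtain ⟨T, hT⟩ : ∃ T, T = 4 * p - 3 := ⟨_, rfl⟩
  rw [← hT] at hN
  have hT1 : 1 ≤ T := by omega
  obtain ⟨b, hb⟩ : ∃ b : ℕ → ℕ, b = fun j => (s * M + 1) ^ j := ⟨_, rfl⟩
  have hbpos : ∀ i, 0 < b i := by
    intro i
    rw [hb]
    exact Nat.pow_pos (by omega)
  have hgeom : ∀ i, s * (∑ j ∈ range i, M * b j) + 1 = b i := by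
    intro i
    rw [hb]
    exact geom s M i
  have hsum : ∀ i, ∑ j ∈ range i, M * b j ≤ b i := by
    intro i
    have h1 := hgeom i
    have h2 : ∑ j ∈ range i, M * b j ≤ s * ∑ j ∈ range i, M * b j :=
      Nat.le_mul_of_pos_left _ hs1
    omega
  have hlow : ∀ i, ((∑ j ∈ range i, M * b j : ℕ) : ℝ) ^ 2 ≤ ε / 2 * (b i : ℝ) ^ 2 := by
    intro i
    have h1 : (s : ℝ) * ((∑ j ∈ range i, M * b j : ℕ) : ℝ) ≤ b i := by
      have := hgeom i
      have h2 : s * (∑ j ∈ range i, M * b j) ≤ b i := by omega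
      exact_mod_cast h2
    have h0 : (0 : ℝ) ≤ ((∑ j ∈ range i, M * b j : ℕ) : ℝ) := Nat.cast_nonneg _
    generalize ((∑ j ∈ range i, M * b j : ℕ) : ℝ) = σ at h1 h0
    have h3 : (s : ℝ) ^ 2 * σ ^ 2 ≤ (b i : ℝ) ^ 2 := by
      rw [← mul_pow]
      exact pow_le_pow_left₀ (by positivity) h1 2
    have h4 : 2 / ε * σ ^ 2 ≤ (s : ℝ) ^ 2 * σ ^ 2 := mul_le_mul_of_nonneg_right hs2 (sq_nonneg _)
    have h5 : σ ^ 2 = ε / 2 * (2 / ε * σ ^ 2) := by field_simp
    rw [h5]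
    exact mul_le_mul_of_nonneg_left (h4.trans h3) (by positivity)
  have hcardι : Fintype.card (Σ i : Fin T, Fin M × Fin (b i)) ≤ Fintype.card (Fin N) := by
    rw [Fintype.card_sigma, Fintype.card_fin]
    simp only [Fintype.card_prod, Fintype.card_fin]
    rw [Fin.sum_univ_eq_sum_range (fun j => M * b j)]
    refine (hsum T).trans ?_
    rw [hb]
    exact hN
  obtain ⟨ι⟩ := Function.Embedding.nonempty_of_card_le hcardι
  obtain ⟨q0, -⟩ : ∃ q0 : Fin M, q0 = ⟨0, hM1⟩ := ⟨_, rfl⟩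
  obtain ⟨m0, -⟩ : ∃ m0 : Fin (d * R) → Fin R, m0 = fun _ => ⟨0, hR⟩ := ⟨_, rfl⟩
  obtain ⟨f, hf, hI⟩ := hdec
  by_contra hcon
  push Not at hcon
  -- the programs
  have hc : ∀ c : ℝ, (fun _ => c) ∈ dInputs (Fin N) (Fin N) d R := fun c => Or.inr ⟨c, rfl⟩
  have key : ∀ ω, ∃ r : DGame (Fin N) (Fin N) d R → ℕ, (∀ x, r x < p) ∧ ∀ x0,
      ∃ (l' : List (DGame (Fin N) (Fin N) d R → ℝ)) (f' : DGame (Fin N) (Fin N) d R → ℝ),
        Prog (dInputs (Fin N) (Fin N) d R) l' ∧ f' ∈ l' ∧ l'.length = 2 * (l ω).length ∧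
        ∀ y, (∀ g ∈ dInputs (Fin N) (Fin N) d R, g x0 ≤ g y) →
          (r y = r x0 ∧ f' y = f ω y) ∨ (r x0 < r y ∧ 1 ≤ f' y) := by
    intro ω
    obtain ⟨q, hq, hlq⟩ := hl ω
    obtain ⟨r, hr, h⟩ := main hc hlq (hf ω)
    exact ⟨r, fun x => (hr x).trans_le hq, h⟩
  choose r hr hkey using key
  -- the sequences of games
  set sq : (Fin T → Y) → ℕ → DGame (Fin M) (Fin M) d R := fun z j =>
    neg (z (if h : j < T then ⟨j, h⟩ else ⟨0, hT1⟩)) with hsq
  have hsqY : ∀ z j, DYes (sq z j) := fun z j => hneg _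
  have hsqi : ∀ z (i : Fin T), sq z i = neg (z i) := by
    intro z i
    simp only [hsq, i.2, dif_pos]
  have hupd : ∀ z (i : Fin T) y, ∀ j < (i : ℕ), sq (Function.update z i y) j = sq z j := by
    intro z i y j hj
    have hjT : j < T := hj.trans i.2
    simp only [hsq, hjT, dif_pos]
    rw [Function.update_of_ne]
    intro h
    have := congrArg Fin.val h
    simp only at this
    omega
  refine avg_chain (Ω := Ω) (X := X) (Y := Y) T p hp hT
    (fun ω i z x => 1 ≤ f ω (glue q0 ι (ins m0 (sq z) i (pos x))))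
    (fun ω i z => f ω (glue q0 ι (low m0 (sq z) (i + 1))) < 1)
    (fun ω i z => r ω (glue q0 ι (low m0 (sq z) (i + 1))) = r ω (glue q0 ι (low m0 (sq z) i)))
    ?_ ?_ ?_ ?_
  · intro i z x
    exact (hI _).1 (glue_no (by omega) hR q0 ι m0 (sq z) i i.2 (hbpos i) ε hε (hlow i) (pos x)
      (hpos x))
  · intro i z
    exact (hI _).2 (glue_yes q0 ι m0 (sq z) (hsqY z) i i.2 (hbpos i))
  · intro ω z
    have h1 := changes (fun i => r ω (glue q0 ι (low m0 (sq z) i))) T (by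
      intro i _
      obtain ⟨l', f', _, _, _, h⟩ := hkey ω (glue q0 ι (low m0 (sq z) i))
      have h2 := h (glue q0 ι (low m0 (sq z) (i + 1))) (by
        rw [← ins_self]
        exact glue_mono q0 ι m0 (sq z) i _)
      rcases h2 with h2 | h2
      · exact h2.1.ge
      · exact h2.1.le)
    have h2 := hr ω (glue q0 ι (low m0 (sq z) T))
    have h3 := (Nat.le_add_right _ _).trans h1
    exact (Nat.add_le_add_right ((cardFR _ _ _ _ fun i hi => hi).trans h3) 1).trans h2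
  · intro ω i z
    obtain ⟨l', f', hl', hf', hlen, h⟩ := hkey ω (glue q0 ι (low m0 (sq z) i))
    have hprog : Prog (dInputs (Fin M) (Fin M) d R)
        (l'.map fun g G => g (glue q0 ι (ins m0 (sq z) i G))) :=
      prog_comp _ (glue_inputs q0 ι m0 (sq z) i i.2) hl'
    have hlt : (l'.map fun g G => g (glue q0 ι (ins m0 (sq z) i G))).length < 2 ^ L := by
      rw [List.length_map, hlen]
      exact hcon ω
    rcases hard _ hprog (fun G => f' (glue q0 ι (ins m0 (sq z) i G)))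
      (List.mem_map.2 ⟨f', hf', rfl⟩) hlt with g | g
    · left
      refine le_trans (Nat.mul_le_mul_left _ (cardF _ _ _ _ _ ?_)) g
      intro x hx2
      rcases h _ (glue_mono q0 ι m0 (sq z) i (pos x)) with h2 | h2
      · rw [h2.2]
        exact hx2
      · exact h2.2
    · right
      refine le_trans (Nat.mul_le_mul_left _ (cardF _ _ _ _ _ ?_)) g
      rintro y ⟨hy1, hy2⟩
      have e1 : low m0 (sq (Function.update z i y)) (i + 1) = ins m0 (sq z) i (neg y) := by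
        rw [← ins_self, ins_congr m0 _ (hupd z i y), hsqi, Function.update_self]
      have e2 : low m0 (sq (Function.update z i y)) i = low m0 (sq z) i :=
        low_congr m0 (hupd z i y)
      rw [e1] at hy1 hy2
      rw [e2] at hy2
      rcases h _ (glue_mono q0 ι m0 (sq z) i (neg y)) with h2 | h2
      · rw [h2.2]
        exact hy1
      · exact absurd hy2 h2.1.ne'

/-- **Main theorem.** -/
theorem few_gates (d : ℕ) (hd : 2 ≤ d) (ε : ℝ) (hε : 0 < ε) :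
    ∃ R : ℕ, 1 ≤ R ∧ ∃ K : ℕ, ∀ p N : ℕ, 1 ≤ p → K ^ p ≤ N →
      ∀ (Ω : Type) [Fintype Ω] [Nonempty Ω] (l : Ω → List (DGame (Fin N) (Fin N) d R → ℝ)),
      (∀ ω, ∃ q ≤ p, GProg (dInputs (Fin N) (Fin N) d R) q (l ω)) → DDecides ε l →
      ∃ ω, (2 : ℝ) ^ ((N : ℝ) ^ (1 / (60 * (p : ℝ)))) ≤ (l ω).length := by
  obtain ⟨R, L1, s, hR, hs, h⟩ := core d hd ε hε
  obtain ⟨k0, hk0⟩ : ∃ k0, k0 = L1 + 66 * s + 2 ^ 15 + 2 := ⟨_, rfl⟩
  refine ⟨R, hR, k0 ^ 56, fun p N hp hN Ω _ _ l hl hdec => ?_⟩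
  -- the parameter
  obtain ⟨x, hx⟩ : ∃ x : ℝ, x = (N : ℝ) ^ (1 / (56 * (p : ℝ))) := ⟨_, rfl⟩
  have hpr : (1 : ℝ) ≤ p := by exact_mod_cast hp
  have hp0 : (0 : ℝ) < 56 * p := by linarith
  have hxk : (k0 : ℝ) ≤ x := by
    have h1 : ((k0 : ℝ) ^ (56 * p)) ≤ N := by
      have : k0 ^ (56 * p) ≤ N := by rw [pow_mul]; exact hN
      exact_mod_cast this
    have h2 : ((k0 : ℝ) ^ (56 * p)) ^ (1 / (56 * (p : ℝ))) ≤ x := by
      rw [hx]
      exact Real.rpow_le_rpow (by positivity) h1 (by positivity)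
    have h3 : ((k0 : ℝ) ^ (56 * p)) ^ (1 / (56 * (p : ℝ))) = k0 := by
      rw [← Real.rpow_natCast, ← Real.rpow_mul (Nat.cast_nonneg _)]
      push_cast
      rw [mul_one_div_cancel hp0.ne', Real.rpow_one]
    linarith
  have hx0 : 0 ≤ x := by rw [hx]; positivity
  obtain ⟨L, hL⟩ : ∃ L, L = Nat.floor x := ⟨_, rfl⟩
  have hLk : k0 ≤ L := by rw [hL]; exact Nat.le_floor hxk
  have hLx : (L : ℝ) ≤ x := by rw [hL]; exact Nat.floor_le hx0
  have hxL : x < L + 1 := by rw [hL]; exact Nat.lt_floor_add_one x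
  have hLN : L ^ (56 * p) ≤ N := by
    have h1 : ((L : ℝ) ^ (56 * p)) ≤ x ^ (56 * p) := pow_le_pow_left₀ (Nat.cast_nonneg _) hLx _
    have h2 : x ^ (56 * p) = N := by
      rw [hx, ← Real.rpow_natCast, ← Real.rpow_mul (Nat.cast_nonneg _)]
      push_cast
      rw [one_div_mul_cancel hp0.ne', Real.rpow_one]
    rw [h2] at h1
    exact_mod_cast h1
  have hB : (s * (64 * L ^ 13 + 1) + 1) ^ (4 * p - 3) ≤ N := by
    have h1 : s * (64 * L ^ 13 + 1) + 1 ≤ L ^ 14 := by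
      have e1 : 1 ≤ L ^ 13 := Nat.one_le_pow _ _ (by omega)
      have e2 : 64 * L ^ 13 + 1 ≤ 65 * L ^ 13 := by omega
      have e3 : 1 ≤ s * L ^ 13 := Nat.mul_pos hs (by omega)
      calc s * (64 * L ^ 13 + 1) + 1 ≤ s * (65 * L ^ 13) + s * L ^ 13 :=
            Nat.add_le_add (Nat.mul_le_mul_left _ e2) e3
        _ = (66 * s) * L ^ 13 := by ring
        _ ≤ L * L ^ 13 := Nat.mul_le_mul_right _ (by omega)
        _ = L ^ 14 := by ring
    calc (s * (64 * L ^ 13 + 1) + 1) ^ (4 * p - 3) ≤ (L ^ 14) ^ (4 * p - 3) :=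
          Nat.pow_le_pow_left h1 _
      _ = L ^ (14 * (4 * p - 3)) := by rw [pow_mul]
      _ ≤ L ^ (56 * p) := Nat.pow_le_pow_right (by omega) (by omega)
      _ ≤ N := hLN
  obtain ⟨ω, hω⟩ := h L (by omega) p hp N hB Ω l hl hdec
  refine ⟨ω, ?_⟩
  -- the size
  have h1 : (2 : ℝ) ^ L ≤ 2 * (l ω).length := by exact_mod_cast hω
  have h2 : (2 : ℝ) ^ (x - 2) ≤ (l ω).length := by
    have e1 : (2 : ℝ) ^ (x - 2) * 2 ≤ 2 ^ L := by
      calc (2 : ℝ) ^ (x - 2) * 2 = (2 : ℝ) ^ (x - 2 + 1) := by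
            rw [Real.rpow_add (by norm_num), Real.rpow_one]
        _ ≤ (2 : ℝ) ^ (L : ℝ) := Real.rpow_le_rpow_of_exponent_le (by norm_num) (by linarith)
        _ = 2 ^ L := Real.rpow_natCast 2 L
    linarith
  refine le_trans (Real.rpow_le_rpow_of_exponent_le (by norm_num) ?_) h2
  have hx15 : (2 : ℝ) ^ (15 : ℕ) ≤ x := by
    have : ((2 ^ 15 : ℕ) : ℝ) ≤ k0 := by
      have : 2 ^ 15 ≤ k0 := by omega
      exact_mod_cast this
    push_cast at this
    linarith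
  have e1 : (N : ℝ) ^ (1 / (60 * (p : ℝ))) = x ^ (14 / 15 : ℝ) := by
    rw [hx, ← Real.rpow_mul (Nat.cast_nonneg _)]
    congr 1
    field_simp
    norm_num
  rw [e1]
  have hxpos : 0 < x := lt_of_lt_of_le (by positivity) hx15
  have e2 : x = x ^ (14 / 15 : ℝ) * x ^ (1 / 15 : ℝ) := by
    rw [← Real.rpow_add hxpos]
    norm_num
  have e3 : (2 : ℝ) ≤ x ^ (1 / 15 : ℝ) := by
    have : ((2 : ℝ) ^ (15 : ℕ)) ^ (1 / 15 : ℝ) = 2 := by
      rw [← Real.rpow_natCast, ← Real.rpow_mul (by norm_num)]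
      norm_num
    rw [← this]
    exact Real.rpow_le_rpow (by positivity) hx15 (by norm_num)
  have e4 : (2 : ℝ) ≤ x ^ (14 / 15 : ℝ) := by
    refine e3.trans (Real.rpow_le_rpow_of_exponent_le ?_ (by norm_num))
    linarith [show (1 : ℝ) ≤ 2 ^ 15 by norm_num]
  have e5 : x ^ (14 / 15 : ℝ) * 2 ≤ x := by
    calc x ^ (14 / 15 : ℝ) * 2 ≤ x ^ (14 / 15 : ℝ) * x ^ (1 / 15 : ℝ) :=
          mul_le_mul_of_nonneg_left e3 (by linarith)
      _ = x := e2.symm
  linarith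

end Pool.Agent.NH48.FN
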